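import Pool.Agent.N919.P17.Par
import Pool.Agent.N919.P17.Two

/-!
# Vectors of norm `n` of two lattices with weights when the prime `l` divides `n` and the
# determinant `2 l`, odd discriminants (after helper970 and helper693)
-/

set_option autoImplicit false

namespace Pool.Agent.N919.RR

open Finset Pool.Agent.N877.TF Pool.Agent.N919.P17
open Pool.Agent.N877.TF (fo)

/-- the genus condition away from `l` -/
def Gk (l n : ℕ) (d : ℤ) (g : ℤ × ℤ × ℤ) : Prop :=
  ∀ p ∈ n.primeFactors.erase l, jacobiSym (-(2 * d * vl n g)) p = 1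

instance (l n : ℕ) (d : ℤ) (g : ℤ × ℤ × ℤ) : Decidable (Gk l n d g) := by
  unfold Gk; infer_instance

theorem jac_zero {l : ℕ} (hl : l.Prime) {x : ℤ} (h : (l : ℤ) ∣ x) : jacobiSym x l = 0 := by
  haveI : NeZero l := ⟨hl.ne_zero⟩
  rw [jacobiSym.eq_zero_iff_not_coprime]
  intro h1
  have h2 : (l : ℤ) ∣ ((x.gcd l : ℕ) : ℤ) := Int.dvd_coe_gcd h (dvd_refl _)
  rw [h1] at h2
  have h3 : l ∣ 1 := by exact_mod_cast h2
  exact hl.one_lt.ne' (Nat.dvd_one.1 h3)

theorem card_PP_red {S S' : Co} (hd' : S'.d = S.d) (hf : FinFr S) (hf' : FinFr S') {w w' τ : ℕ}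
    (hT : Tors2 S S' w w' τ) (hd : 0 < S.d) {l : ℕ} (hl : l.Prime) (hld : (l : ℤ) ∣ S.d)
    {n m : ℕ} (hnm : n = l * m) (hsq : Squarefree n) (hodd : Odd n)
    (hcop : IsCoprime S.d (m : ℤ)) {g : ℤ × ℤ × ℤ}
    (hg : g ∈ Rd n) : w * Nat.card (S.PP (2 * g.1) g.2.1 (2 * g.2.2)) +
      w' * Nat.card (S'.PP (2 * g.1) g.2.1 (2 * g.2.2)) =
      if Gk l n S.d g then τ * 2 ^ (n.primeFactors.card - 1) else 0 := by
  obtain ⟨a, b, c⟩ := g
  have hR := mem_Rd.1 hg
  simp only at hR ⊢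
  obtain ⟨hn, ha, -⟩ := hR
  have hn0 : 0 < n := Nat.pos_of_ne_zero hsq.ne_zero
  obtain ⟨h1, h2⟩ := gcd_facts hsq a
  set e : ℕ := Int.gcd a n with he
  set f : ℕ := n / e with hf0
  -- the base change
  obtain ⟨s, q', hsq'⟩ : IsCoprime (e : ℤ) (f : ℤ) := Nat.isCoprime_iff_coprime.2 h2
  have hdet : (e : ℤ) * s - (-q') * f = 1 := by linear_combination hsq'
  have hv : vl n (a, b, c) = a * (e : ℤ) ^ 2 + b * ((e : ℤ) * f) + c * (f : ℤ) ^ 2 := rfl
  rw [card_PP_change S hdet, card_PP_change S' hdet]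
  have hnew : 4 * (a * (e : ℤ) ^ 2 + b * ((e : ℤ) * f) + c * (f : ℤ) ^ 2) *
      (a * (-q') ^ 2 + b * ((-q') * s) + c * s ^ 2) -
      (2 * a * ((e : ℤ) * (-q')) + b * ((e : ℤ) * s + (-q') * f) + 2 * c * ((f : ℤ) * s)) ^ 2 =
      n := by
    have : 4 * (a * (e : ℤ) ^ 2 + b * ((e : ℤ) * f) + c * (f : ℤ) ^ 2) *
      (a * (-q') ^ 2 + b * ((-q') * s) + c * s ^ 2) -
      (2 * a * ((e : ℤ) * (-q')) + b * ((e : ℤ) * s + (-q') * f) + 2 * c * ((f : ℤ) * s)) ^ 2 =
      (4 * a * c - b ^ 2) * ((e : ℤ) * s - (-q') * f) ^ 2 := by ring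
    rw [this, hdet, hn]; ring
  have hpos : 0 < a * (e : ℤ) ^ 2 + b * ((e : ℤ) * f) + c * (f : ℤ) ^ 2 := by
    apply pos_val ha (by rw [hn]; exact_mod_cast hn0)
    left
    intro h0
    rw [show e = 0 by exact_mod_cast h0, zero_mul] at h1
    omega
  have hcv := vl_coprime hsq (a := a) (b := b) (c := c) hn
  rw [hv] at hcv
  have hcard := card_PP2 hd' hf hf' hT hnew hpos hsq hodd hcv
  rw [hcard]
  have hw : 0 < 2 * (a * (e : ℤ) ^ 2 + b * ((e : ℤ) * f) + c * (f : ℤ) ^ 2) * S.d := by positivity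
  have h5 := card_Iu hsq hodd hw
  have h5m : l ∈ n.primeFactors := Nat.mem_primeFactors.2 ⟨hl, ⟨m, hnm⟩, hsq.ne_zero⟩
  -- the symbols do not vanish
  have hJ : ∀ p ∈ n.primeFactors.erase l, jacobiSym (-(2 * S.d * vl n (a, b, c))) p = 1 ∨
      jacobiSym (-(2 * S.d * vl n (a, b, c))) p = -1 := by
    intro p hp'
    obtain ⟨hp5, hp⟩ := Finset.mem_erase.1 hp'
    have hpp := Nat.prime_of_mem_primeFactors hp
    have hpn := Nat.dvd_of_mem_primeFactors hp
    have hpm : p ∣ m := by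
      rw [hnm] at hpn
      rcases (Nat.Prime.dvd_mul hpp).1 hpn with h | h
      · exact absurd ((Nat.prime_dvd_prime_iff_eq hpp hl).1 h) hp5
      · exact h
    have hc2 : IsCoprime (2 : ℤ) (n : ℤ) := by
      obtain ⟨k, hk⟩ := hodd
      refine ⟨-k, 1, ?_⟩
      rw [hk]; push_cast; ring
    have hall : IsCoprime (-(2 * S.d * vl n (a, b, c))) (p : ℤ) := by
      have h6 : IsCoprime (2 * vl n (a, b, c)) (n : ℤ) :=
        hc2.mul_left (vl_coprime hsq hn)
      have h7 : IsCoprime (2 * vl n (a, b, c)) (p : ℤ) :=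
        h6.of_isCoprime_of_dvd_right (by exact_mod_cast hpn)
      have h8 : IsCoprime S.d (p : ℤ) := hcop.of_isCoprime_of_dvd_right (by exact_mod_cast hpm)
      have h9 : 2 * S.d * vl n (a, b, c) = S.d * (2 * vl n (a, b, c)) := by ring
      rw [h9]
      exact (h8.mul_left h7).neg_left
    have : NeZero p := ⟨hpp.ne_zero⟩
    have h7 : jacobiSym (-(2 * S.d * vl n (a, b, c))) p ≠ 0 := by
      rw [Ne, jacobiSym.eq_zero_iff_not_coprime]
      exact fun h => h (Int.isCoprime_iff_gcd_eq_one.1 hall)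
    rcases jacobiSym.trichotomy (-(2 * S.d * vl n (a, b, c))) p with h | h | h
    · exact absurd h h7
    · exact Or.inl h
    · exact Or.inr h
  have harg : -(2 * (a * (e : ℤ) ^ 2 + b * ((e : ℤ) * f) + c * (f : ℤ) ^ 2) * S.d) =
      -(2 * S.d * vl n (a, b, c)) := by rw [hv]; ring
  rw [harg, ← Finset.mul_prod_erase _ _ h5m] at h5
  have hj5 : jacobiSym (-(2 * S.d * vl n (a, b, c))) l = 0 := by
    apply jac_zero hl
    rw [dvd_neg]
    exact Dvd.dvd.mul_right (Dvd.dvd.mul_left hld _) _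
  rw [hj5, add_zero, one_mul] at h5
  split_ifs with hG
  · congr 1
    have : ((Iu n (2 * (a * (e : ℤ) ^ 2 + b * ((e : ℤ) * f) + c * (f : ℤ) ^ 2) * S.d)).card : ℤ) =
        ((2 ^ (n.primeFactors.card - 1) : ℕ) : ℤ) := by
      rw [h5, Finset.prod_congr rfl (fun p hp => by rw [hG p hp])]
      rw [Finset.prod_const, Finset.card_erase_of_mem h5m]; push_cast; norm_num
    exact_mod_cast this
  · have : ((Iu n (2 * (a * (e : ℤ) ^ 2 + b * ((e : ℤ) * f) + c * (f : ℤ) ^ 2) * S.d)).card : ℤ) =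
        0 := by
      rw [h5, Finset.prod_eq_zero_iff]
      unfold Gk at hG
      push Not at hG
      obtain ⟨p, hp, hne⟩ := hG
      refine ⟨p, hp, ?_⟩
      rcases hJ p hp with h | h
      · exact absurd h hne
      · rw [h]; norm_num
    have h8 : (Iu n (2 * (a * (e : ℤ) ^ 2 + b * ((e : ℤ) * f) + c * (f : ℤ) ^ 2) * S.d)).card =
        0 := by exact_mod_cast this
    rw [h8, mul_zero]

/-- the weighted number of vectors -/
theorem card_vec {S S' : Co} (hd' : S'.d = S.d) (hf : FinFr S) (hf' : FinFr S') {w w' τ : ℕ}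
    (hpos : S.Pos) (hpos' : S'.Pos) (hT : Tors2 S S' w w' τ) (hd : 0 < S.d) {l : ℕ} (hl : l.Prime)
    (hld : (l : ℤ) ∣ S.d) {n m : ℕ} (hnm : n = l * m)
    (hsq : Squarefree n) (hodd : Odd n) (hn3 : n ≠ 3) (hcop : IsCoprime S.d (m : ℤ))
    {VV VV' : Finset V} (hVV : ∀ v, v ∈ VV ↔ S.nm v = n) (hVV' : ∀ v, v ∈ VV' ↔ S'.nm v = n)
    (hev : ∀ v, S.nm v = n → ∀ u : V, dt v u = 0 → Even (S.B u u))
    (hev' : ∀ v, S'.nm v = n → ∀ u : V, dt v u = 0 → Even (S'.B u u)) :
    2 * (w * VV.card + w' * VV'.card) =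
      τ * 2 ^ (n.primeFactors.card - 1) * ((Rd n).filter fun g => Gk l n S.d g).card := by
  have h1 := sum_PP S hpos hsq hodd hn3 hVV hev
  have h2 := sum_PP S' hpos' hsq hodd hn3 hVV' hev'
  have h3 : 2 * (w * VV.card + w' * VV'.card) = w * (2 * VV.card) + w' * (2 * VV'.card) := by ring
  rw [h3, h1, h2, Finset.mul_sum, Finset.mul_sum, ← Finset.sum_add_distrib,
    Finset.sum_congr rfl (fun g hg => card_PP_red hd' hf hf' hT hd hl hld hnm hsq hodd hcop hg),
    ← Finset.sum_filter, Finset.sum_const, smul_eq_mul, mul_comm]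

/-- the factorizations `n = r s`, `r < s`, satisfying the genus condition -/
def AK (l n : ℕ) (d : ℤ) : Finset ℕ := n.divisors.filter fun r => r * r < n ∧
  (∀ p ∈ r.primeFactors, p ≠ l → jacobiSym (-(2 * d * ((n / r : ℕ) : ℤ))) p = 1) ∧
  (∀ p ∈ (n / r).primeFactors, p ≠ l → jacobiSym (-(2 * d * (r : ℤ))) p = 1)

/-- parity: only the ambiguous forms count -/
theorem card_parity {l n : ℕ} (hodd : Odd n) (d : ℤ) :
    Odd ((Rd n).filter fun g => Gk l n d g).card ↔
      Odd ((Rd n).filter fun g => Gk l n d g ∧ (g.2.1 = g.1 ∨ g.1 = g.2.2)).card := by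
  classical
  have hb0 : ∀ g ∈ Rd n, g.2.1 ≠ 0 := by
    intro g hg h0
    have h := (mem_Rd.1 hg).1
    rw [h0] at h
    obtain ⟨k, hk⟩ := hodd
    have : (2 : ℤ) ∣ 1 := ⟨2 * (g.1 * g.2.2) - k, by rw [hk] at h; push_cast at h; linarith⟩
    norm_num at this
  have hsplit : ((Rd n).filter fun g => Gk l n d g).card =
      ((Rd n).filter fun g => Gk l n d g ∧ (g.2.1 = g.1 ∨ g.1 = g.2.2)).card +
      ((Rd n).filter fun g => Gk l n d g ∧ ¬ (g.2.1 = g.1 ∨ g.1 = g.2.2)).card := by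
    rw [← Finset.card_filter_add_card_filter_not (s := (Rd n).filter fun g => Gk l n d g)
      (fun g => g.2.1 = g.1 ∨ g.1 = g.2.2), Finset.filter_filter, Finset.filter_filter]
  have heven : Even ((Rd n).filter fun g => Gk l n d g ∧ ¬ (g.2.1 = g.1 ∨ g.1 = g.2.2)).card := by
    have h0 : ∑ _g ∈ (Rd n).filter (fun g => Gk l n d g ∧ ¬ (g.2.1 = g.1 ∨ g.1 = g.2.2)),
        (1 : ZMod 2) = 0 := by
      refine Finset.sum_involution (fun g _ => (g.1, -g.2.1, g.2.2)) ?_ ?_ ?_ ?_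
      · intro g _; decide
      · rintro ⟨a, b, c⟩ hg _ h
        simp only [Prod.mk.injEq, true_and, and_true] at h
        exact hb0 _ (Finset.mem_filter.1 hg).1 (by simp only; omega)
      · rintro ⟨a, b, c⟩ hg
        obtain ⟨h1, h2, h3⟩ := Finset.mem_filter.1 hg
        rw [Finset.mem_filter]
        have hR := mem_Rd.1 h1
        simp only at hR h2 h3 ⊢
        push Not at h3
        obtain ⟨r1, r2, r3, r4, r5, r6⟩ := hR
        refine ⟨mem_Rd.2 ⟨by rw [← r1]; ring, r2, by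
          simp only; have := lt_of_le_of_ne r4 h3.1; linarith, by simp only; linarith, r5,
          fun h => absurd h h3.2⟩, ?_, ?_⟩
        · intro p hp
          rw [← h2 p hp]
          apply jacobiSym.mod_left'
          refine Int.ModEq.symm (Int.modEq_iff_dvd.2 ?_)
          have hpn : (p : ℤ) ∣ n := by
            exact_mod_cast Nat.dvd_of_mem_primeFactors (Finset.mem_erase.1 hp).2
          have hef : ((Int.gcd a n : ℕ) : ℤ) * ((n / Int.gcd a n : ℕ) : ℤ) = n := by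
            have h1 : Int.gcd a n ∣ n := by
              have := Int.gcd_dvd_right a (n : ℤ)
              exact_mod_cast this
            exact_mod_cast Nat.mul_div_cancel' h1
          have : -(2 * d * vl n (a, -b, c)) - -(2 * d * vl n (a, b, c)) = n * (4 * d * b) := by
            simp only [vl]
            linear_combination (4 * d * b) * hef
          rw [this]
          exact Dvd.dvd.mul_right hpn _
        · rintro (h | h)
          · linarith
          · exact h3.2 h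
      · rintro ⟨a, b, c⟩ _
        simp
    rw [Finset.sum_const, nsmul_eq_mul, mul_one] at h0
    exact (ZMod.natCast_eq_zero_iff_even).1 h0
  rw [hsplit, Nat.odd_add]
  exact ⟨fun h => h.2 heven, fun h => ⟨fun _ => heven, fun _ => h⟩⟩

theorem Gk_fo {l n r : ℕ} (hr : r ∣ n) (hsq : Squarefree n) (h4 : n % 4 = 3) (d : ℤ) :
    Gk l n d (fo n r) ↔
      (∀ p ∈ r.primeFactors, p ≠ l → jacobiSym (-(2 * d * ((n / r : ℕ) : ℤ))) p = 1) ∧
      (∀ p ∈ (n / r).primeFactors, p ≠ l → jacobiSym (-(2 * d * (r : ℤ))) p = 1) := by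
  have hrs : r * (n / r) = n := Nat.mul_div_cancel' hr
  obtain ⟨k, hk, hcop, hr0, hs0⟩ := AF_aux hrs hsq h4
  have hpf : ∀ p, p ∈ n.primeFactors ↔ p ∈ r.primeFactors ∨ p ∈ (n / r).primeFactors := by
    intro p
    conv_lhs => rw [← hrs, Nat.primeFactors_mul hr0.ne' hs0.ne', Finset.mem_union]
  constructor
  · intro h
    refine ⟨fun p hp h5 => ?_, fun p hp h5 => ?_⟩
    · rw [← (vl_fo hrs hsq h4 hk hr0 hcop d p (Nat.prime_of_mem_primeFactors hp)).1
        (Nat.dvd_of_mem_primeFactors hp)]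
      exact h p (Finset.mem_erase.2 ⟨h5, (hpf p).2 (Or.inl hp)⟩)
    · rw [← (vl_fo hrs hsq h4 hk hr0 hcop d p (Nat.prime_of_mem_primeFactors hp)).2
        (Nat.dvd_of_mem_primeFactors hp)]
      exact h p (Finset.mem_erase.2 ⟨h5, (hpf p).2 (Or.inr hp)⟩)
  · rintro ⟨h1, h2⟩ p hp
    obtain ⟨h5, hp⟩ := Finset.mem_erase.1 hp
    rcases (hpf p).1 hp with hp' | hp'
    · rw [(vl_fo hrs hsq h4 hk hr0 hcop d p (Nat.prime_of_mem_primeFactors hp')).1
        (Nat.dvd_of_mem_primeFactors hp')]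
      exact h1 p hp' h5
    · rw [(vl_fo hrs hsq h4 hk hr0 hcop d p (Nat.prime_of_mem_primeFactors hp')).2
        (Nat.dvd_of_mem_primeFactors hp')]
      exact h2 p hp' h5

/-- ambiguous reduced forms are factorizations -/
theorem card_amb {l n : ℕ} (hsq : Squarefree n) (h4 : n % 4 = 3) (d : ℤ) :
    ((Rd n).filter fun g => Gk l n d g ∧ (g.2.1 = g.1 ∨ g.1 = g.2.2)).card = (AK l n d).card := by
  symm
  have hn0 : n ≠ 0 := hsq.ne_zero
  refine Finset.card_bij (fun r _ => fo n r) ?_ ?_ ?_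
  · intro r hr
    simp only [AK, mem_filter, Nat.mem_divisors] at hr
    obtain ⟨⟨hrn, -⟩, hlt, hG⟩ := hr
    have hrs : r * (n / r) = n := Nat.mul_div_cancel' hrn
    obtain ⟨k, hk, hcop, hr0, hs0⟩ := AF_aux hrs hsq h4
    have hGc := (Gk_fo hrn hsq h4 d).2 hG
    generalize hs : n / r = s at *
    have hrslt : r < s := by
      have : r * r < r * s := by rw [hrs]; exact hlt
      exact Nat.lt_of_mul_lt_mul_left this
    have hk4 : (r + s) / 4 = k := by omega
    have hkZ : (r : ℤ) + s = 4 * k := by exact_mod_cast hk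
    have hrsZ : (r : ℤ) * s = n := by exact_mod_cast hrs
    rw [mem_filter]
    refine ⟨mem_Rd.2 ?_, hGc, ?_⟩
    · by_cases hc : 3 * r ≤ s
      · have hfo : fo n r = ((r : ℤ), (r : ℤ), (k : ℤ)) := by
          unfold fo; rw [hs, if_pos hc, hk4]
        rw [hfo]
        simp only
        refine ⟨?_, by exact_mod_cast hr0, by omega, le_refl _, by omega, fun _ => by omega⟩
        rw [← hrsZ]; linear_combination -(r : ℤ) * hkZ
      · have hfo : fo n r = ((k : ℤ), 2 * (k : ℤ) - r, (k : ℤ)) := by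
          unfold fo; rw [hs, if_neg hc, hk4]
        rw [hfo]
        simp only
        refine ⟨?_, by omega, by omega, by omega, le_refl _, fun _ => by omega⟩
        rw [← hrsZ]; linear_combination -(r : ℤ) * hkZ
    · by_cases hc : 3 * r ≤ s
      · left; unfold fo; rw [hs, if_pos hc]
      · right; unfold fo; rw [hs, if_neg hc]
  · intro r hr r' hr' heq
    simp only [AK, mem_filter, Nat.mem_divisors] at hr hr'
    have key : ∀ r : ℕ, r ∣ n → r * r < n →
        ((fo n r).2.1 = (fo n r).1 → (r : ℤ) = (fo n r).1) ∧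
        ((fo n r).2.1 ≠ (fo n r).1 → (r : ℤ) = 2 * (fo n r).1 - (fo n r).2.1) := by
      intro r hrn hlt
      have hrs : r * (n / r) = n := Nat.mul_div_cancel' hrn
      obtain ⟨k, hk, hcop, hr0, hs0⟩ := AF_aux hrs hsq h4
      generalize hs : n / r = s at *
      have hk4 : (r + s) / 4 = k := by omega
      by_cases hc : 3 * r ≤ s
      · have hfo : fo n r = ((r : ℤ), (r : ℤ), (k : ℤ)) := by
          unfold fo; rw [hs, if_pos hc, hk4]
        rw [hfo]
        simp
      · have hfo : fo n r = ((k : ℤ), 2 * (k : ℤ) - r, (k : ℤ)) := by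
          unfold fo; rw [hs, if_neg hc, hk4]
        rw [hfo]
        simp only
        constructor
        · intro h; omega
        · intro _; ring
    obtain ⟨k1, k2⟩ := key r hr.1.1 hr.2.1
    obtain ⟨k1', k2'⟩ := key r' hr'.1.1 hr'.2.1
    rw [heq] at k1 k2
    have : (r : ℤ) = r' := by
      by_cases h : (fo n r').2.1 = (fo n r').1
      · rw [k1 h, k1' h]
      · rw [k2 h, k2' h]
    exact_mod_cast this
  · rintro ⟨a, b, c⟩ hg
    obtain ⟨h1, h2⟩ := mem_filter.1 hg
    have h3 := h2.2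
    obtain ⟨r1, r2, r3, r4, r5, r6⟩ := mem_Rd.1 h1
    simp only at r1 r2 r3 r4 r5 r6 h3
    have hb0 : b ≠ 0 := by
      rintro rfl
      have h5 : (n : ℤ) % 4 = 3 := by exact_mod_cast h4
      rw [← r1] at h5
      have : (4 * a * c - 0 ^ 2) = 4 * (a * c) := by ring
      rw [this] at h5
      omega
    -- the factorization
    obtain ⟨r, s, hr0, hrs, hlt, hfo⟩ : ∃ r s : ℕ, 0 < r ∧ r * s = n ∧ r < s ∧
        fo n r = (a, b, c) := by
      by_cases hba : b = a
      · subst hba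
        obtain ⟨r, hr⟩ : ∃ r : ℕ, (r : ℤ) = b := ⟨b.toNat, Int.toNat_of_nonneg (by omega)⟩
        obtain ⟨s, hs⟩ : ∃ s : ℕ, (s : ℤ) = 4 * c - b :=
          ⟨(4 * c - b).toNat, Int.toNat_of_nonneg (by omega)⟩
        have hrs : r * s = n := by
          have : (r : ℤ) * s = n := by rw [hr, hs, ← r1]; ring
          exact_mod_cast this
        have hr0 : 0 < r := by omega
        have hnr : n / r = s := by rw [← hrs]; exact Nat.mul_div_cancel_left _ hr0
        refine ⟨r, s, hr0, hrs, by omega, ?_⟩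
        unfold fo
        rw [hnr, if_pos (by omega)]
        have : (((r + s) / 4 : ℕ) : ℤ) = c := by omega
        rw [this, hr]
      · have hac : a = c := h3.resolve_left hba
        subst hac
        have hbp : 0 < b := lt_of_le_of_ne (r6 rfl) (Ne.symm hb0)
        have hbl : b < a := lt_of_le_of_ne r4 hba
        obtain ⟨r, hr⟩ : ∃ r : ℕ, (r : ℤ) = 2 * a - b :=
          ⟨(2 * a - b).toNat, Int.toNat_of_nonneg (by omega)⟩
        obtain ⟨s, hs⟩ : ∃ s : ℕ, (s : ℤ) = 2 * a + b :=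
          ⟨(2 * a + b).toNat, Int.toNat_of_nonneg (by omega)⟩
        have hrs : r * s = n := by
          have : (r : ℤ) * s = n := by rw [hr, hs, ← r1]; ring
          exact_mod_cast this
        have hr0 : 0 < r := by omega
        have hnr : n / r = s := by rw [← hrs]; exact Nat.mul_div_cancel_left _ hr0
        refine ⟨r, s, hr0, hrs, by omega, ?_⟩
        unfold fo
        rw [hnr, if_neg (by omega)]
        have : (((r + s) / 4 : ℕ) : ℤ) = a := by omega
        rw [this, hr]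
        simp
    have hrn : r ∣ n := ⟨s, hrs.symm⟩
    refine ⟨r, ?_, hfo⟩
    simp only [AK, mem_filter, Nat.mem_divisors]
    refine ⟨⟨hrn, hn0⟩, ?_, (Gk_fo hrn hsq h4 d).1 (by rw [hfo]; exact h2.1)⟩
    calc r * r < r * s := Nat.mul_lt_mul_of_pos_left hlt hr0
      _ = n := hrs


open Pool.Agent.N855.P15

theorem lkey {n : ℕ} (hn : Squarefree n) (x : PP n → ZMod 2) (p : PP n) :
    jacobiSym (if (p : ℕ) ∣ dv n x then ((n / dv n x : ℕ) : ℤ) else (dv n x : ℤ)) p =
      sg (LL n x p) := by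
  rw [LL_apply]
  by_cases h : x p = 1
  · rw [if_pos ((dvd_dv x p).2 h), dv_div hn, jac_dv]
    · congr 1
      apply sum_congr rfl
      intro q _
      rw [h]
      rfl
    · simp only [Pi.add_apply, Pi.one_apply, h]
      decide
  · rw [if_neg (fun h1 => h ((dvd_dv x p).1 h1)), jac_dv x p h]
    congr 1
    have : ∀ a : ZMod 2, ¬ a = 1 → a = 0 := by decide
    rw [this _ h]
    exact sum_congr rfl fun q _ => by rw [add_zero]

theorem dv_surj {n d : ℕ} (hn : Squarefree n) (hd : d ∣ n) : ∃ x : PP n → ZMod 2, dv n x = d := by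
  have hd0 : d ≠ 0 := fun h => hn.ne_zero (by rw [h] at hd; exact zero_dvd_iff.1 hd)
  refine ⟨fun p => if (p : ℕ) ∣ d then 1 else 0, ?_⟩
  unfold dv
  have h1 : univ.filter (fun p : PP n => (if (p : ℕ) ∣ d then (1 : ZMod 2) else 0) = 1) =
      univ.filter (fun p : PP n => (p : ℕ) ∣ d) := by
    apply filter_congr
    intro p _
    split_ifs with h <;> simp [h]
  rw [h1]
  have h2 : ∏ p ∈ univ.filter (fun p : PP n => (p : ℕ) ∣ d), (p : ℕ) =
      ∏ p ∈ n.primeFactors.filter (fun p => p ∣ d), p := by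
    rw [prod_filter, prod_filter]
    exact Finset.prod_coe_sort n.primeFactors (fun p => if p ∣ d then p else 1)
  rw [h2]
  have h3 : n.primeFactors.filter (fun p => p ∣ d) = d.primeFactors := by
    ext p
    simp only [mem_filter, Nat.mem_primeFactors]
    exact ⟨fun h => ⟨h.1.1, h.2, hd0⟩, fun h => ⟨⟨h.1, h.2.1.trans hd, hn.ne_zero⟩, h.2.1⟩⟩
  rw [h3]
  exact Nat.prod_primeFactors_of_squarefree (hn.squarefree_of_dvd hd)

/-- the condition at the primes other than `l` implies the condition at `l` -/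
theorem cnd_away {l n : ℕ} (hl : l.Prime) (hn : Squarefree n) (h3 : n % 4 = 3) (h5 : l ∣ n)
    (κ : PP n → ZMod 2) (hκ : ∑ p, κ p = 0) (f : ℕ → ℤ) (hf : ∀ p : PP n, f p = sg (κ p))
    {d : ℕ} (hd : d ∣ n)
    (h : ∀ p ∈ n.primeFactors, p ≠ l →
      jacobiSym (if p ∣ d then ((n / d : ℕ) : ℤ) else (d : ℤ)) p = f p) : Cnd n f d := by
  obtain ⟨x, rfl⟩ := dv_surj hn hd
  rw [cnd_iff hn κ f hf]
  have hp5 : l ∈ n.primeFactors := Nat.mem_primeFactors.2 ⟨hl, h5, hn.ne_zero⟩
  have h1 : ∀ p : PP n, p ≠ ⟨l, hp5⟩ → LL n x p = κ p := by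
    intro p hp
    apply sg_inj
    rw [← lkey hn, ← hf p]
    exact h p p.2 fun h6 => hp (Subtype.ext h6)
  funext p
  by_cases hp : p = ⟨l, hp5⟩
  · have h2 := LL_sum hn h3 x
    rw [← hκ, ← Finset.add_sum_erase _ _ (mem_univ p), ← Finset.add_sum_erase _ κ (mem_univ p),
      Finset.sum_congr rfl (g := κ)] at h2
    · exact add_right_cancel h2
    · intro q hq
      exact h1 q fun h6 => (Finset.mem_erase.1 hq).1 (h6.trans hp.symm)
  · exact h1 p hp

theorem neg_gcd {l p : ℕ} (hl : l.Prime) (hp : p.Prime) (h : p ≠ l) : (-(l : ℤ)).gcd p = 1 := by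
  rw [Int.neg_gcd, Int.gcd_natCast_natCast]
  exact (Nat.coprime_primes hl hp).2 (Ne.symm h)

theorem jac12 {l n p : ℕ} (hl : l.Prime) (h4 : n % 4 = 3) (hp : p.Prime) (hpn : p ∣ n)
    (hp3 : p ≠ l) {x : ℕ} (hx : ¬ p ∣ x) :
    (jacobiSym (-(2 * (2 * (l : ℤ)) * (x : ℤ))) p = 1 ↔
      jacobiSym (x : ℤ) p = jacobiSym (-(l : ℤ)) p) := by
  have h2 : jacobiSym ((2 : ℤ) ^ 2) p = 1 := by
    apply jacobiSym.sq_one'
    have h3 : ¬ p ∣ 2 := Pool.Agent.N877.TF.not_dvd_two h4 hp hpn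
    have : IsCoprime (2 : ℤ) (p : ℤ) := by
      rw [isCoprime_comm]
      exact (Prime.coprime_iff_not_dvd (Nat.prime_iff_prime_int.1 hp)).2
        (fun h => h3 (by exact_mod_cast h))
    exact Int.isCoprime_iff_gcd_eq_one.1 this
  have e : -(2 * (2 * (l : ℤ)) * (x : ℤ)) = (-(l : ℤ) * x) * 2 ^ 2 := by ring
  rw [e, jacobiSym.mul_left, h2, mul_one, jacobiSym.mul_left]
  have g1 : (-(l : ℤ)).gcd p = 1 := neg_gcd hl hp hp3
  have g2 : (x : ℤ).gcd p = 1 := by
    rw [Int.gcd_natCast_natCast]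
    exact ((Nat.Prime.coprime_iff_not_dvd hp).2 hx).symm
  rcases jacobiSym.eq_one_or_neg_one g1 with k1 | k1 <;>
    rcases jacobiSym.eq_one_or_neg_one g2 with k2 | k2 <;> rw [k1, k2] <;> norm_num

/-- the parity of the number of ambiguous forms -/
theorem ak_odd {l n : ℕ} (hl : l.Prime) (hn : Squarefree n) (h4 : n % 4 = 3) (h5 : l ∣ n) :
    Odd (AK l n (2 * (l : ℤ))).card ↔ Pool.Agent.N969.P15.Qc n := by
  classical
  have hp5 : l ∈ n.primeFactors := Nat.mem_primeFactors.2 ⟨hl, h5, hn.ne_zero⟩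
  have : Nonempty (PP n) := ⟨⟨l, hp5⟩⟩
  let P5 : PP n := ⟨l, hp5⟩
  let κ : PP n → ZMod 2 := fun p => if p = P5 then ∑ q ∈ univ.erase P5, sy (-(l : ℤ)) (q : ℕ)
    else sy (-(l : ℤ)) (p : ℕ)
  let f : ℕ → ℤ := fun p => if h : p ∈ n.primeFactors then sg (κ ⟨p, h⟩) else 0
  have hf : ∀ p : PP n, f p = sg (κ p) := by
    intro p
    show (if h : (p : ℕ) ∈ n.primeFactors then sg (κ ⟨p, h⟩) else 0) = sg (κ p)
    rw [dif_pos p.2]
  have hf' : ∀ p ∈ n.primeFactors, p ≠ l → f p = jacobiSym (-(l : ℤ)) p := by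
    intro p hp hp5'
    have h1 := hf ⟨p, hp⟩
    simp only at h1
    rw [h1]
    show sg (if (⟨p, hp⟩ : PP n) = P5 then _ else sy (-(l : ℤ)) p) = _
    rw [if_neg (fun h => hp5' (congrArg Subtype.val h))]
    exact sg_sy (neg_gcd hl (Nat.prime_of_mem_primeFactors hp) hp5')
  have hκ0 : ∑ p, κ p = 0 := by
    rw [← Finset.add_sum_erase _ _ (mem_univ P5)]
    have h1 : κ P5 = ∑ q ∈ univ.erase P5, sy (-(l : ℤ)) (q : ℕ) := if_pos rfl
    have h2 : ∑ q ∈ univ.erase P5, κ q = ∑ q ∈ univ.erase P5, sy (-(l : ℤ)) (q : ℕ) := by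
      refine Finset.sum_congr rfl fun q hq => ?_
      exact if_neg (Finset.mem_erase.1 hq).1
    rw [h1, h2]
    exact add_self2 _
  have hcard := lin (LL n) (LL_one n) (LL_sum hn h4) κ hκ0
  rw [dv_bij hn κ f hf, ← Qj_iff hn, ← Qc_iff hn.ne_zero, card_two hn h4 f] at hcard
  unfold Pool.Agent.N919.P17.DD at hcard
  rw [← hcard]
  have hAK : AK l n (2 * (l : ℤ)) = n.divisors.filter fun d => Cnd n f d ∧ d * d < n := by
    unfold AK
    apply filter_congr
    intro r hr
    rw [and_comm (a := Cnd n f r)]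
    refine and_congr_right fun _ => ?_
    obtain ⟨E, hE⟩ := Nat.dvd_of_mem_divisors hr
    have hrn : r ∣ n := Nat.dvd_of_mem_divisors hr
    have hr0 : 0 < r := Nat.pos_of_ne_zero fun h0 => hn.ne_zero (by rw [hE, h0, zero_mul])
    have hE0 : E ≠ 0 := fun h0 => hn.ne_zero (by rw [hE, h0, mul_zero])
    have hE' : n / r = E := Nat.div_eq_of_eq_mul_right hr0 hE
    rw [hE']
    have hdE : ∀ p ∈ n.primeFactors, (p ∣ r ∧ ¬ p ∣ E) ∨ (¬ p ∣ r ∧ p ∣ E) := by
      intro p hp
      have hpp := Nat.prime_of_mem_primeFactors hp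
      have hpn := Nat.dvd_of_mem_primeFactors hp
      by_cases h1 : p ∣ r
      · left
        refine ⟨h1, fun h2 => ?_⟩
        have h7 : p * p ∣ n := by
          rw [hE]
          exact mul_dvd_mul h1 h2
        exact hpp.one_lt.ne' (Nat.isUnit_iff.1 (hn p h7))
      · right
        refine ⟨h1, ?_⟩
        rw [hE] at hpn
        exact ((Nat.Prime.dvd_mul hpp).1 hpn).resolve_left h1
    constructor
    · rintro ⟨a1, a2⟩
      refine cnd_away hl hn h4 h5 κ hκ0 f hf hrn fun p hp hp5' => ?_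
      have hpp := Nat.prime_of_mem_primeFactors hp
      have hpn := Nat.dvd_of_mem_primeFactors hp
      rw [hE', hf' p hp hp5']
      rcases hdE p hp with ⟨b1, b2⟩ | ⟨b1, b2⟩
      · rw [if_pos b1]
        exact (jac12 hl h4 hpp hpn hp5' b2).1 (a1 p (Nat.mem_primeFactors.2 ⟨hpp, b1, hr0.ne'⟩) hp5')
      · rw [if_neg b1]
        exact (jac12 hl h4 hpp hpn hp5' b1).1 (a2 p (Nat.mem_primeFactors.2 ⟨hpp, b2, hE0⟩) hp5')
    · intro hc
      constructor
      · intro p hp hp5'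
        have hpp := Nat.prime_of_mem_primeFactors hp
        have b1 := Nat.dvd_of_mem_primeFactors hp
        have hpn : p ∣ n := b1.trans ⟨E, hE⟩
        have hp' : p ∈ n.primeFactors := Nat.mem_primeFactors.2 ⟨hpp, hpn, hn.ne_zero⟩
        have b2 : ¬ p ∣ E := by
          rcases hdE p hp' with h | h
          · exact h.2
          · exact absurd b1 h.1
        have := hc p hp'
        rw [if_pos b1, hE', hf' p hp' hp5'] at this
        exact (jac12 hl h4 hpp hpn hp5' b2).2 this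
      · intro p hp hp5'
        have hpp := Nat.prime_of_mem_primeFactors hp
        have b2 := Nat.dvd_of_mem_primeFactors hp
        have hpn : p ∣ n := b2.trans ⟨r, by rw [hE, mul_comm]⟩
        have hp' : p ∈ n.primeFactors := Nat.mem_primeFactors.2 ⟨hpp, hpn, hn.ne_zero⟩
        have b1 : ¬ p ∣ r := by
          rcases hdE p hp' with h | h
          · exact absurd b2 h.2
          · exact h.1
        have := hc p hp'
        rw [if_neg b1, hf' p hp' hp5'] at this
        exact (jac12 hl h4 hpp hpn hp5' b1).2 this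
  rw [hAK, Nat.odd_iff]
  omega


end Pool.Agent.N919.RR
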