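import Pool.Agent.N919.RE.Fin
import Pool.Agent.N919.RR.Od

/-!
# Vectors of norm `4 m` of two lattices with weights, the prime `l` divides `m` and the
# determinant `2 l` (after helper970 and helper693)
-/

set_option autoImplicit false
set_option linter.style.haveILetI false

namespace Pool.Agent.N919.RR

open Finset Pool.Agent.N877.TF
open Pool.Agent.N919.RE (Dat Ie wv Nn Nn_sq two_dvd_Nn dvd_Nn prime_dvd_Nn T2 card_Ie card_PP prim pf4 card_pf4 val_facts)

/-- the genus condition away from `l` -/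
def GcK (l m : ℕ) (g : ℤ × ℤ × ℤ) : Prop :=
  (∀ p ∈ (m.primeFactors.erase 2).erase l, jacobiSym (-((l : ℤ) * wv p g)) p = 1) ∧
    T2 m ((l : ℤ) * wv 2 g)

instance (l m : ℕ) (g : ℤ × ℤ × ℤ) : Decidable (GcK l m g) := by
  unfold GcK; infer_instance

theorem card_PP_redE {S S' : Co} {w w' τ l : ℕ} (D : Dat S S' w w' τ l) (hl : l.Prime)
    (hl2 : l ≠ 2) {m : ℕ} (hsq : Squarefree m) (hm : m % 4 = 1 ∨ m % 4 = 2) (h5 : l ∣ m)
    {g : ℤ × ℤ × ℤ} (hg : g ∈ Rd (4 * m)) :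
    w * Nat.card (S.PP (2 * g.1) g.2.1 (2 * g.2.2)) +
      w' * Nat.card (S'.PP (2 * g.1) g.2.1 (2 * g.2.2)) =
      if GcK l m g then τ * 2 ^ (m.primeFactors.erase 2).card else 0 := by
  obtain ⟨a, b0, c⟩ := g
  have hR := mem_Rd.1 hg
  simp only at hR ⊢
  obtain ⟨hn0, ha, -⟩ := hR
  obtain ⟨b, rfl⟩ : ∃ b, b0 = 2 * b := by
    rcases Int.even_or_odd b0 with ⟨k, hk⟩ | ⟨k, hk⟩
    · exact ⟨k, by rw [hk]; ring⟩
    · exfalso
      rw [hk] at hn0
      push_cast at hn0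
      have : 4 * (a * c - k ^ 2 - k - m) = 1 := by linear_combination hn0
      omega
  have hn : a * c - b ^ 2 = m := by
    push_cast at hn0
    linarith
  have hm0 : 0 < m := Nat.pos_of_ne_zero hsq.ne_zero
  have hmZ : (0 : ℤ) < m := by exact_mod_cast hm0
  obtain ⟨h1, h2⟩ := gcd_facts (Nn_sq hsq) a
  obtain ⟨e, he⟩ : ∃ e, e = Int.gcd a (Nn m) := ⟨_, rfl⟩
  obtain ⟨f, hf⟩ : ∃ f, f = Nn m / e := ⟨_, rfl⟩
  rw [← he, ← hf] at h1 h2
  obtain ⟨v1, v2, v3⟩ := val_facts (l := l) hsq hm hn h1 he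
  -- the base change
  obtain ⟨s, q', hsq'⟩ : IsCoprime (e : ℤ) (f : ℤ) := Nat.isCoprime_iff_coprime.2 h2
  have hdet : (e : ℤ) * s - (-q') * f = 1 := by linear_combination hsq'
  rw [card_PP_change S hdet, card_PP_change S' hdet]
  obtain ⟨A, hA⟩ : ∃ A, A = a * (e : ℤ) ^ 2 + 2 * b * ((e : ℤ) * f) + c * (f : ℤ) ^ 2 := ⟨_, rfl⟩
  obtain ⟨C, hC⟩ : ∃ C, C = a * (-q') ^ 2 + 2 * b * ((-q') * s) + c * s ^ 2 := ⟨_, rfl⟩
  obtain ⟨B, hB⟩ : ∃ B, B = a * ((e : ℤ) * (-q')) + b * ((e : ℤ) * s + (-q') * f) +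
    c * ((f : ℤ) * s) := ⟨_, rfl⟩
  have hB2 : 2 * a * ((e : ℤ) * (-q')) + 2 * b * ((e : ℤ) * s + (-q') * f) +
      2 * c * ((f : ℤ) * s) = 2 * B := by rw [hB]; ring
  rw [hB2, ← hA, ← hC]
  rw [← hA] at v1 v2 v3
  have hnew : A * C - B ^ 2 = m := by
    have : A * C - B ^ 2 = (a * c - b ^ 2) * ((e : ℤ) * s - (-q') * f) ^ 2 := by
      rw [hA, hB, hC]; ring
    rw [this, hdet, hn]; ring
  have hpos : 0 < A := by
    rw [hA]
    apply pos_val ha (by
      have : 4 * a * c - (2 * b) ^ 2 = 4 * m := by rw [← hn]; ring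
      rw [this]; positivity)
    left
    intro h0
    rw [show e = 0 by exact_mod_cast h0, zero_mul] at h1
    have := (Nn_sq hsq).ne_zero
    omega
  have hcopA : IsCoprime A (m : ℤ) := by
    rw [Int.isCoprime_iff_gcd_eq_one]
    by_contra hne
    obtain ⟨q, hq, hqd⟩ := Nat.exists_prime_and_dvd hne
    have hldZ : (q : ℤ) ∣ ((Int.gcd A m : ℕ) : ℤ) := by exact_mod_cast hqd
    have h3 : (q : ℤ) ∣ A := hldZ.trans (Int.gcd_dvd_left _ _)
    have h4 : (q : ℤ) ∣ (m : ℤ) := hldZ.trans (Int.gcd_dvd_right _ _)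
    have h4' : q ∣ m := by exact_mod_cast h4
    by_cases hq2 : q = 2
    · subst hq2
      rw [← Int.not_even_iff_odd, even_iff_two_dvd] at v2
      exact v2 (by exact_mod_cast h3)
    · exact (v1 q (Finset.mem_erase.2 ⟨hq2, Nat.mem_primeFactors.2 ⟨hq, h4', hm0.ne'⟩⟩)).1 h3
  rw [card_PP D hsq hm hnew hpos v2 hcopA]
  have hlo : Odd (l : ℤ) := by
    exact_mod_cast (hl.eq_two_or_odd'.resolve_left hl2)
  have hl0 : (0 : ℤ) < l := by exact_mod_cast hl.pos
  have hI := card_Ie (w := (l : ℤ) * A) hsq hm (by positivity) (hlo.mul v2)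
  rw [if_congr v3 rfl rfl] at hI
  have h5m : l ∈ m.primeFactors.erase 2 :=
    Finset.mem_erase.2 ⟨hl2, Nat.mem_primeFactors.2 ⟨hl, h5, hm0.ne'⟩⟩
  have hprod : ∏ p ∈ m.primeFactors.erase 2, (1 + jacobiSym (-((l : ℤ) * A)) p) =
      ∏ p ∈ (m.primeFactors.erase 2).erase l,
        (1 + jacobiSym (-((l : ℤ) * wv p (a, 2 * b, c))) p) := by
    rw [← Finset.mul_prod_erase _ _ h5m, jac_zero hl ((dvd_neg).2 (Dvd.intro _ rfl)), add_zero,
      one_mul]
    exact Finset.prod_congr rfl fun p hp => by rw [(v1 p (Finset.mem_of_mem_erase hp)).2]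
  have hc1 : ((m.primeFactors.erase 2).erase l).card + 1 = (m.primeFactors.erase 2).card :=
    Finset.card_erase_add_one h5m
  rw [hprod] at hI
  by_cases hG : GcK l m (a, 2 * b, c)
  · rw [if_pos hG]
    rw [if_pos hG.2, Finset.prod_congr rfl (fun p hp => by rw [hG.1 p hp]), Finset.prod_const] at hI
    have : (Ie m ((l : ℤ) * A)).card = 2 ^ (m.primeFactors.erase 2).card := by
      have : ((Ie m ((l : ℤ) * A)).card : ℤ) = ((2 ^ (m.primeFactors.erase 2).card : ℕ) : ℤ) := by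
        rw [hI, ← hc1]; push_cast; ring
      exact_mod_cast this
    rw [this]
  · rw [if_neg hG]
    have : ((Ie m ((l : ℤ) * A)).card : ℤ) = 0 := by
      rw [hI]
      split_ifs with hT
      · have hG' : ¬ ∀ p ∈ (m.primeFactors.erase 2).erase l,
            jacobiSym (-((l : ℤ) * wv p (a, 2 * b, c))) p = 1 :=
          fun h => hG ⟨h, hT⟩
        push Not at hG'
        obtain ⟨p, hp, hne⟩ := hG'
        rw [Finset.prod_eq_zero hp, mul_zero]
        obtain ⟨hp5, hp'⟩ := Finset.mem_erase.1 hp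
        obtain ⟨w1, w2⟩ := v1 p hp'
        rw [← w2] at hne ⊢
        have hpp := Nat.prime_of_mem_primeFactors (Finset.mem_of_mem_erase hp')
        have hpm := Nat.dvd_of_mem_primeFactors (Finset.mem_of_mem_erase hp')
        haveI : NeZero p := ⟨hpp.ne_zero⟩
        have hpZ : Prime (p : ℤ) := Nat.prime_iff_prime_int.1 hpp
        have h7 : jacobiSym (-((l : ℤ) * A)) p ≠ 0 := by
          rw [Ne, jacobiSym.eq_zero_iff_not_coprime]
          intro h
          apply h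
          rw [← Int.isCoprime_iff_gcd_eq_one]
          rw [isCoprime_comm]
          refine (Prime.coprime_iff_not_dvd hpZ).2 ?_
          rw [dvd_neg]
          intro h8
          rcases hpZ.dvd_or_dvd h8 with h9 | h9
          · have h10 : p ∣ l := by exact_mod_cast h9
            have h11 := (Nat.prime_dvd_prime_iff_eq hpp hl).1 h10
            exact hp5 h11
          · exact w1 h9
        rcases jacobiSym.trichotomy (-((l : ℤ) * A)) p with h | h | h
        · exact absurd h h7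
        · exact absurd h hne
        · rw [h]; norm_num
      · rfl
    have h8 : (Ie m ((l : ℤ) * A)).card = 0 := by exact_mod_cast this
    rw [h8, mul_zero]

/-- the weighted number of vectors -/
theorem card_vecE {S S' : Co} {w w' τ l : ℕ} (D : Dat S S' w w' τ l) (hl : l.Prime)
    (hl2 : l ≠ 2) {m : ℕ} (hsq : Squarefree m) (hm : m % 4 = 1 ∨ m % 4 = 2) (h5 : l ∣ m)
    (hm1 : m ≠ 1) {VV VV' : Finset V} (hVV : ∀ v, v ∈ VV ↔ S.nm v = (4 * m : ℕ))
    (hVV' : ∀ v, v ∈ VV' ↔ S'.nm v = (4 * m : ℕ)) :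
    2 * (w * VV.card + w' * VV'.card) = τ * 2 ^ ((4 * m).primeFactors.card - 1) *
      ((Rd (4 * m)).filter fun g => GcK l m g).card := by
  have hm0 : m ≠ 0 := hsq.ne_zero
  have k1 : ∀ a : ℤ, ((4 * m : ℕ) : ℤ) ≠ 4 * a ^ 2 := fun a ha => by
    have h1 : (m : ℤ) = a ^ 2 := by push_cast at ha; linarith
    have h2 : m = a.natAbs * a.natAbs := by
      have : (m : ℤ) = ((a.natAbs * a.natAbs : ℕ) : ℤ) := by
        rw [h1, Int.natAbs_mul_self]; ring
      exact_mod_cast this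
    have h3 := Nat.isUnit_iff.1 (hsq a.natAbs (Dvd.intro_left 1 (by rw [one_mul]; exact h2.symm)))
    rw [h3] at h2
    exact hm1 h2
  have k2 : ∀ a : ℤ, ((4 * m : ℕ) : ℤ) ≠ 3 * a ^ 2 := fun a ha => by
    have h1 : (4 : ℤ) * m = 3 * a ^ 2 := by push_cast at ha; linarith
    obtain ⟨k, hk⟩ : (2 : ℤ) ∣ a := by
      rcases Int.even_or_odd a with ⟨k, hk⟩ | ⟨k, hk⟩
      · exact ⟨k, by rw [hk]; ring⟩
      · exfalso
        rw [hk] at h1
        have : (3 : ℤ) * (2 * k + 1) ^ 2 = 4 * (3 * (k ^ 2 + k)) + 3 := by ring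
        omega
    have h2 : (m : ℤ) = 3 * k ^ 2 := by rw [hk] at h1; linarith
    rcases Int.even_or_odd k with ⟨j, hj⟩ | ⟨j, hj⟩
    · have : (m : ℤ) = 4 * (3 * j ^ 2) := by rw [h2, hj]; ring
      omega
    · have : (m : ℤ) = 4 * (3 * (j ^ 2 + j)) + 3 := by rw [h2, hj]; ring
      omega
  have h := Pool.Agent.N916.RE.sum_PP S D.p1 (n := 4 * m) (by omega) k1 k2 hVV
    (fun v hv => prim D.m1 hsq hm hv) (fun _ _ u _ => D.e1 u)
  have h' := Pool.Agent.N916.RE.sum_PP S' D.p2 (n := 4 * m) (by omega) k1 k2 hVV'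
    (fun v hv => prim D.m2 hsq hm hv) (fun _ _ u _ => D.e2 u)
  have h3 : 2 * (w * VV.card + w' * VV'.card) = w * (2 * VV.card) + w' * (2 * VV'.card) := by ring
  rw [h3, h, h', Finset.mul_sum, Finset.mul_sum, ← Finset.sum_add_distrib,
    Finset.sum_congr rfl (fun g hg => card_PP_redE D hl hl2 hsq hm h5 hg), ← Finset.sum_filter,
    Finset.sum_const, smul_eq_mul, card_pf4 hm0, Nat.add_sub_cancel]
  ring

/-- parity: only the ambiguous forms count -/
theorem card_parityE (l m : ℕ) :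
    Odd ((Rd (4 * m)).filter fun g => GcK l m g).card ↔
      Odd ((Rd (4 * m)).filter fun g => GcK l m g ∧ (g.2.1 = 0 ∨ g.2.1 = g.1 ∨ g.1 = g.2.2)).card := by
  classical
  have hsplit : ((Rd (4 * m)).filter fun g => GcK l m g).card =
      ((Rd (4 * m)).filter fun g => GcK l m g ∧ (g.2.1 = 0 ∨ g.2.1 = g.1 ∨ g.1 = g.2.2)).card +
      ((Rd (4 * m)).filter fun g => GcK l m g ∧ ¬ (g.2.1 = 0 ∨ g.2.1 = g.1 ∨ g.1 = g.2.2)).card := by
    rw [← Finset.card_filter_add_card_filter_not (s := (Rd (4 * m)).filter fun g => GcK l m g)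
      (fun g => g.2.1 = 0 ∨ g.2.1 = g.1 ∨ g.1 = g.2.2), Finset.filter_filter, Finset.filter_filter]
  have heven : Even ((Rd (4 * m)).filter fun g => GcK l m g ∧
      ¬ (g.2.1 = 0 ∨ g.2.1 = g.1 ∨ g.1 = g.2.2)).card := by
    have h0 : ∑ _g ∈ (Rd (4 * m)).filter (fun g => GcK l m g ∧
        ¬ (g.2.1 = 0 ∨ g.2.1 = g.1 ∨ g.1 = g.2.2)), (1 : ZMod 2) = 0 := by
      refine Finset.sum_involution (fun g _ => (g.1, -g.2.1, g.2.2)) ?_ ?_ ?_ ?_
      · intro g _; decide
      · rintro ⟨a, b, c⟩ hg _ h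
        simp only [Prod.mk.injEq, true_and, and_true] at h
        have := (Finset.mem_filter.1 hg).2.2
        simp only at this
        exact this (Or.inl (by omega))
      · rintro ⟨a, b, c⟩ hg
        obtain ⟨h1, h2, h3⟩ := Finset.mem_filter.1 hg
        rw [Finset.mem_filter]
        have hR := mem_Rd.1 h1
        simp only at hR h2 h3 ⊢
        push Not at h3
        obtain ⟨r1, r2, r3, r4, r5, r6⟩ := hR
        refine ⟨mem_Rd.2 ⟨by rw [← r1]; ring, r2, by
          simp only; have := lt_of_le_of_ne r4 h3.2.1; linarith, by simp only; linarith, r5,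
          fun h => absurd h h3.2.2⟩, h2, ?_⟩
        · rintro (h | h | h)
          · exact h3.1 (by linarith)
          · linarith
          · exact h3.2.2 h
      · rintro ⟨a, b, c⟩ _
        simp
    rw [Finset.sum_const, nsmul_eq_mul, mul_one] at h0
    exact (ZMod.natCast_eq_zero_iff_even).1 h0
  rw [hsplit, Nat.odd_add]
  exact ⟨fun h => h.2 heven, fun h => ⟨fun _ => heven, fun _ => h⟩⟩

end Pool.Agent.N919.RR
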