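import Pool.Agent.N919.RR.Ke

/-!
# Ambiguous forms for even discriminants divisible by `l`: the condition at two
# (after helper970 and helper693)
-/

set_option autoImplicit false
set_option linter.style.haveILetI false

namespace Pool.Agent.N919.RR

open Finset Pool.Agent.N877.TF
open Pool.Agent.N916.RE (jac_all odd_pf eps sq_fac two_sym)
open Pool.Agent.N919.RE (sign_C jac_ml)

/-- the sign at `l` -/
def cl (l : ℕ) : ℤ := if l % 4 = 1 then -1 else 1

/-- the condition on a factorization away from `l` -/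
def Ck (l t r s : ℕ) : Prop :=
  (∀ p ∈ s.primeFactors, p ≠ 2 → p ≠ l → jacobiSym (-((l : ℤ) * ((t : ℤ) * r))) p = 1) ∧
  (∀ p ∈ r.primeFactors, p ≠ 2 → p ≠ l → jacobiSym (-((l : ℤ) * ((t : ℤ) * s))) p = 1)

/-- the condition on a factorization at `l` -/
def K3 (l t r s : ℕ) : Prop :=
  (l ∣ s → jacobiSym ((t : ℤ) * ((s / l : ℕ) : ℤ)) l = cl l) ∧
  (l ∣ r → jacobiSym ((t : ℤ) * ((r / l : ℕ) : ℤ)) l = cl l)

instance (l t r s : ℕ) : Decidable (Ck l t r s) := by unfold Ck; infer_instance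
instance (l t r s : ℕ) : Decidable (K3 l t r s) := by unfold K3; infer_instance

theorem Ck_symm {l t r s : ℕ} : Ck l t r s ↔ Ck l t s r := by
  unfold Ck; exact and_comm

theorem K3_symm {l t r s : ℕ} : K3 l t r s ↔ K3 l t s r := by
  unfold K3; exact and_comm

theorem jac_l {l M : ℕ} (hlo : Odd l) (hM : Odd M) :
    jacobiSym (l : ℤ) M = (if l % 4 = 3 ∧ M % 4 = 3 then -1 else 1) * jacobiSym (M : ℤ) l := by
  rw [jacobiSym.quadratic_reciprocity hlo hM, eps hlo hM]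

theorem jac_pm {l M : ℕ} (hl : l.Prime) (h : ¬ l ∣ M) :
    jacobiSym (M : ℤ) l = 1 ∨ jacobiSym (M : ℤ) l = -1 := by
  apply jacobiSym.eq_one_or_neg_one
  rw [Int.gcd_natCast_natCast]
  exact ((Nat.Prime.coprime_iff_not_dvd hl).2 h).symm

theorem sq1 {x : ℤ} (h : x = 1 ∨ x = -1) : x * x = 1 := by
  rcases h with rfl | rfl <;> norm_num

/-- the general relation for two numbers prime to `2 l` -/
theorem core {l R S : ℕ} {t1 t2 : ℤ} (hlo : Odd l) (hR : Odd R) (hS : Odd S) (qR : Squarefree R)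
    (qS : Squarefree S)
    (h1 : ∀ p ∈ S.primeFactors, jacobiSym (-((l : ℤ) * (t1 * R))) p = 1)
    (h2 : ∀ p ∈ R.primeFactors, jacobiSym (-((l : ℤ) * (t2 * S))) p = 1) :
    (if l % 4 = 1 ∧ (R * S) % 4 = 3 then -1 else 1) *
      (jacobiSym (R : ℤ) l * jacobiSym (S : ℤ) l) *
      jacobiSym t1 S * jacobiSym t2 R * (if R % 4 = 3 ∧ S % 4 = 3 then -1 else 1) = 1 := by
  have h := sign_C hR hS qR qS h1 h2
  rw [jac_ml hlo (hR.mul hS), eps hR hS, Nat.cast_mul,
    jacobiSym.mul_left] at h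
  exact h

theorem sqf_fac {m r s : ℕ} (hsq : Squarefree m) (h : r * s = m) {l : ℕ} (hl : l.Prime)
    (hr : l ∣ r) : ¬ l ∣ s := by
  intro hs
  obtain ⟨-, -, hcop, -⟩ := sq_fac hsq h
  exact hl.one_lt.ne' (Nat.eq_one_of_dvd_coprimes hcop hr hs)

theorem not_dvd_quot {l S : ℕ} (hl : l.Prime) (q : Squarefree (l * S)) : ¬ l ∣ S := by
  rintro ⟨k, rfl⟩
  exact hl.one_lt.ne' (Nat.isUnit_iff.1 (q l ⟨k, by ring⟩))

/-- `m` odd, `l ∣ s` -/
theorem core1 {l m r s : ℕ} (hl : l.Prime) (hlo : Odd l) (hsq : Squarefree m) (hm : m % 4 = 1)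
    (h : r * s = m) (hs3 : l ∣ s)
    {t : ℕ} (hC : Ck l t r s) : ∃ S : ℕ, s = l * S ∧ Odd r ∧ Odd S ∧ (r * S) % 4 = l % 4 ∧
      jacobiSym (S : ℤ) l * jacobiSym (t : ℤ) S * jacobiSym (t : ℤ) r *
        (if r % 4 = 1 then 1 else -1) = 1 ∧ ¬ l ∣ S ∧ ¬ l ∣ r := by
  obtain ⟨q1, q2, -⟩ := sq_fac hsq h
  obtain ⟨S, rfl⟩ := hs3
  have hmo : Odd (r * (l * S)) := by rw [h, Nat.odd_iff]; omega
  obtain ⟨hr, hs⟩ := Nat.odd_mul.1 hmo
  have hS := (Nat.odd_mul.1 hs).2
  have qS : Squarefree S := q2.squarefree_of_dvd (Dvd.intro_left _ rfl)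
  have nS : ¬ l ∣ S := not_dvd_quot hl q2
  have nr : ¬ l ∣ r := fun hr5 => sqf_fac hsq h hl hr5 (Dvd.intro _ rfl)
  have hlo' := Nat.odd_iff.1 hlo
  have hr' := Nat.odd_iff.1 hr
  have hS' := Nat.odd_iff.1 hS
  have h4 : (r * S) % 4 = l % 4 := by
    have e1 : ((r * S) % 4 * (l % 4)) % 4 = 1 := by
      rw [← Nat.mul_mod, ← hm, ← h]
      congr 1
      ring
    have e2 : (r * S) % 2 = 1 := by rw [Nat.mul_mod, hr', hS']
    rcases (show (r * S) % 4 = 1 ∨ (r * S) % 4 = 3 by omega) with h5 | h5 <;>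
      rcases (show l % 4 = 1 ∨ l % 4 = 3 by omega) with h6 | h6 <;> rw [h5, h6] at e1 ⊢ <;>
      norm_num at e1
  have hne : ∀ p, p ∈ S.primeFactors → p ≠ l := by
    rintro p hp rfl
    exact nS (Nat.dvd_of_mem_primeFactors hp)
  have hne' : ∀ p, p ∈ r.primeFactors → p ≠ l := by
    rintro p hp rfl
    exact nr (Nat.dvd_of_mem_primeFactors hp)
  have hk := core (l := l) (t1 := t) (t2 := l * t) hlo hr hS q1 qS (fun p hp => by
      have hp' : p ∈ (l * S).primeFactors := Nat.mem_primeFactors.2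
        ⟨Nat.prime_of_mem_primeFactors hp, (Nat.dvd_of_mem_primeFactors hp).trans
          (Dvd.intro_left _ rfl), q2.ne_zero⟩
      exact hC.1 p hp' (odd_pf hS p hp) (hne p hp)) (fun p hp => by
      have := hC.2 p hp (odd_pf hr p hp) (hne' p hp)
      rw [← this]
      congr 1
      push_cast
      ring)
  refine ⟨S, rfl, hr, hS, h4, ?_, nS, nr⟩
  rw [if_neg (by omega), one_mul, jacobiSym.mul_left (l : ℤ), jac_l hlo hr] at hk
  have e := sq1 (jac_pm hl nr)
  have e3 : (if l % 4 = 3 ∧ r % 4 = 3 then (-1 : ℤ) else 1) *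
      (if r % 4 = 3 ∧ S % 4 = 3 then -1 else 1) = if r % 4 = 1 then 1 else -1 := by
    rw [Nat.mul_mod] at h4
    rcases (show r % 4 = 1 ∨ r % 4 = 3 by omega) with h5 | h5 <;>
      rcases (show l % 4 = 1 ∨ l % 4 = 3 by omega) with h6 | h6 <;>
      rcases (show S % 4 = 1 ∨ S % 4 = 3 by omega) with h7 | h7 <;> rw [h5, h6, h7] at h4 <;>
      norm_num at h4 <;> simp [h5, h6, h7]
  rw [← e3]
  linear_combination hk - (jacobiSym (S : ℤ) l * jacobiSym (t : ℤ) S * jacobiSym (t : ℤ) r *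
        ((if l % 4 = 3 ∧ r % 4 = 3 then (-1 : ℤ) else 1) *
      (if r % 4 = 3 ∧ S % 4 = 3 then -1 else 1))) * e

/-- `m` odd, diagonal forms -/
theorem rk1 {l m r s : ℕ} (hl : l.Prime) (hlo : Odd l) (hsq : Squarefree m) (hm : m % 4 = 1)
    (h5 : l ∣ m) (h : r * s = m) (hC : Ck l 1 r s) : (l * r) % 4 = 3 ↔ K3 l 1 r s := by
  have hl2 := Nat.odd_iff.1 hlo
  have key : ∀ r s : ℕ, r * s = m → Ck l 1 r s → l ∣ s → ((l * r) % 4 = 3 ↔ K3 l 1 r s) := by
    intro r s h hC hs5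
    obtain ⟨S, rfl, hr, hS, h4, hk, nS, nr⟩ := core1 hl hlo hsq hm h hs5 hC
    simp only [Nat.cast_one, jacobiSym.one_left, mul_one] at hk
    rw [Nat.odd_iff] at hr
    unfold K3 cl
    simp only [Nat.cast_one, one_mul]
    rw [Nat.mul_div_cancel_left _ hl.pos, Nat.mul_mod]
    have hjS := jac_pm hl nS
    have hgoal : ((l ∣ l * S → jacobiSym (S : ℤ) l = if l % 4 = 1 then -1 else 1) ∧
        (l ∣ r → jacobiSym (((r / l : ℕ) : ℤ)) l = if l % 4 = 1 then -1 else 1)) ↔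
        jacobiSym (S : ℤ) l = if l % 4 = 1 then -1 else 1 :=
      ⟨fun h' => h'.1 (Dvd.intro _ rfl), fun h' => ⟨fun _ => h', fun h'' => absurd h'' nr⟩⟩
    rw [hgoal]
    rcases (show r % 4 = 1 ∨ r % 4 = 3 by omega) with h5 | h5 <;>
      rcases (show l % 4 = 1 ∨ l % 4 = 3 by omega) with h6 | h6 <;>
      rcases hjS with h7 | h7 <;> rw [h7] at hk <;> simp [h5, h6, h7] at hk ⊢
  have h5' : l ∣ r * s := by rw [h]; exact h5
  rcases (Nat.Prime.dvd_mul hl).1 h5' with h1 | h1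
  · have h2 := key s r (by rw [mul_comm]; exact h) (Ck_symm.1 hC) h1
    rw [K3_symm, ← h2]
    have hmul : (r % 4) * (s % 4) % 4 = 1 := by rw [← Nat.mul_mod, h, hm]
    have hr : r % 4 < 4 := Nat.mod_lt _ (by norm_num)
    have hs : s % 4 < 4 := Nat.mod_lt _ (by norm_num)
    rw [Nat.mul_mod l r, Nat.mul_mod l s]
    rcases (show l % 4 = 1 ∨ l % 4 = 3 by omega) with h6 | h6 <;> rw [h6] <;>
      interval_cases r % 4 <;> interval_cases s % 4 <;> simp_all
  · exact key r s h hC h1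

/-- `m` odd, the other ambiguous forms -/
theorem rk2 {l m r s : ℕ} (hl : l.Prime) (hlo : Odd l) (hsq : Squarefree m) (hm : m % 4 = 1)
    (h5 : l ∣ m) (h : r * s = m) (hC : Ck l 2 r s) : (l * (r + s)) % 8 = 6 ↔ K3 l 2 r s := by
  have hl2 := Nat.odd_iff.1 hlo
  have key : ∀ r s : ℕ, r * s = m → Ck l 2 r s → l ∣ s →
      ((l * (r + s)) % 8 = 6 ↔ K3 l 2 r s) := by
    intro r s h hC hs5
    obtain ⟨S, rfl, hr, hS, h4, hk, nS, nr⟩ := core1 hl hlo hsq hm h hs5 hC
    have c2 : ((2 : ℕ) : ℤ) = 2 := rfl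
    rw [c2, two_sym hr, two_sym hS] at hk
    unfold K3 cl
    rw [Nat.mul_div_cancel_left _ hl.pos, c2, jacobiSym.mul_left, two_sym hlo]
    have hjS := jac_pm hl nS
    rw [Nat.odd_iff] at hr hS
    have hr8 : r % 8 = 1 ∨ r % 8 = 3 ∨ r % 8 = 5 ∨ r % 8 = 7 := by omega
    have hs8 : S % 8 = 1 ∨ S % 8 = 3 ∨ S % 8 = 5 ∨ S % 8 = 7 := by omega
    have hl8 : l % 8 = 1 ∨ l % 8 = 3 ∨ l % 8 = 5 ∨ l % 8 = 7 := by omega
    have hr4 : r % 4 = r % 8 % 4 := by omega
    have hs4 : S % 4 = S % 8 % 4 := by omega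
    have hl4 : l % 4 = l % 8 % 4 := by omega
    have hmul : (r % 8 % 4) * (S % 8 % 4) % 4 = l % 8 % 4 := by
      rw [← hr4, ← hs4, ← Nat.mul_mod, h4, hl4]
    have hadd : (l * (r + l * S)) % 8 = (l % 8) * ((r % 8 + (l % 8) * (S % 8)) % 8) % 8 := by
      rw [Nat.mul_mod, Nat.add_mod, Nat.mul_mod l S, Nat.add_mod_mod]
    rw [hadd]
    rw [hr4] at hk
    have hgoal : ((l ∣ l * S → (if l % 8 = 1 ∨ l % 8 = 7 then 1 else -1) * jacobiSym (S : ℤ) l =
          if l % 4 = 1 then -1 else 1) ∧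
        (l ∣ r → jacobiSym (2 * ((r / l : ℕ) : ℤ)) l = if l % 4 = 1 then -1 else 1)) ↔
        (if l % 8 = 1 ∨ l % 8 = 7 then 1 else -1) * jacobiSym (S : ℤ) l =
          if l % 4 = 1 then -1 else 1 :=
      ⟨fun h' => h'.1 (Dvd.intro _ rfl), fun h' => ⟨fun _ => h', fun h'' => absurd h'' nr⟩⟩
    rw [hgoal, hl4]
    generalize jacobiSym (S : ℤ) l = j at *
    generalize r % 8 = x at *
    generalize S % 8 = y at *
    generalize l % 8 = z at *
    rcases hjS with rfl | rfl <;> rcases hr8 with rfl | rfl | rfl | rfl <;>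
      rcases hs8 with rfl | rfl | rfl | rfl <;> rcases hl8 with rfl | rfl | rfl | rfl <;>
      simp at hk hmul ⊢
  have h5' : l ∣ r * s := by rw [h]; exact h5
  rcases (Nat.Prime.dvd_mul hl).1 h5' with h1 | h1
  · have h2 := key s r (by rw [mul_comm]; exact h) (Ck_symm.1 hC) h1
    rw [K3_symm, ← h2, add_comm]
  · exact key r s h hC h1

/-- `m` even -/
theorem rk3 {l m r s : ℕ} (hl : l.Prime) (hlo : Odd l) (hsq : Squarefree m) (hm : m % 4 = 2)
    (h5 : l ∣ m) (h : r * s = m) (hr : Odd r) (hC : Ck l 1 r s) :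
    ((l * r) % 8 = 7 ∨ (l * r) % 8 = (7 + 7 * m) % 8) ↔ K3 l 1 r s := by
  obtain ⟨q1, q2, -, -, hs0⟩ := sq_fac hsq h
  obtain ⟨s', hs'⟩ : ∃ s', s = 2 * s' := by
    have : Even (r * s) := by rw [h, Nat.even_iff]; omega
    rcases Nat.even_mul.1 this with h1 | h1
    · exact absurd h1 (Nat.not_even_iff_odd.2 hr)
    · obtain ⟨k, hk⟩ := h1
      exact ⟨k, by omega⟩
  have hM : 2 * (r * s') = m := by rw [← h, hs']; ring
  have hodd : Odd (r * s') := by rw [Nat.odd_iff]; omega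
  have hso : Odd s' := (Nat.odd_mul.1 hodd).2
  have q3 : Squarefree s' := q2.squarefree_of_dvd ⟨2, by rw [hs']; ring⟩
  have hl2 := Nat.odd_iff.1 hlo
  have hsp : ∀ p ∈ s'.primeFactors, p ∈ s.primeFactors := fun p hp =>
    Nat.mem_primeFactors.2 ⟨Nat.prime_of_mem_primeFactors hp,
      (Nat.dvd_of_mem_primeFactors hp).trans ⟨2, by rw [hs']; ring⟩, hs0.ne'⟩
  have h5' : l ∣ r * s := by rw [h]; exact h5
  have hl8 : l % 8 = 1 ∨ l % 8 = 3 ∨ l % 8 = 5 ∨ l % 8 = 7 := by omega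
  have hl4 : l % 4 = l % 8 % 4 := by omega
  rcases (Nat.Prime.dvd_mul hl).1 h5' with h1 | h1
  · -- `l ∣ r`
    have ns : ¬ l ∣ s := sqf_fac hsq h hl h1
    obtain ⟨R, rfl⟩ := h1
    have hR := (Nat.odd_mul.1 hr).2
    have qR : Squarefree R := q1.squarefree_of_dvd (Dvd.intro_left _ rfl)
    have nR : ¬ l ∣ R := not_dvd_quot hl q1
    have ns' : ¬ l ∣ s' := fun h' => ns (by rw [hs']; exact Dvd.dvd.mul_left h' _)
    have hk := core (l := l) (t1 := l) (t2 := 2) hlo hR hso qR q3 (fun p hp => by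
        have hne : p ≠ l := by
          rintro rfl
          exact ns' (Nat.dvd_of_mem_primeFactors hp)
        have := hC.1 p (hsp p hp) (odd_pf hso p hp) hne
        rw [← this]
        congr 1
        push_cast
        ring) (fun p hp => by
        have hne : p ≠ l := by
          rintro rfl
          exact nR (Nat.dvd_of_mem_primeFactors hp)
        have hp' : p ∈ (l * R).primeFactors := Nat.mem_primeFactors.2
          ⟨Nat.prime_of_mem_primeFactors hp, (Nat.dvd_of_mem_primeFactors hp).trans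
            (Dvd.intro_left _ rfl), q1.ne_zero⟩
        have := hC.2 p hp' (odd_pf hR p hp) hne
        rw [← this, hs']
        congr 1
        push_cast
        ring)
    rw [jac_l hlo hso, two_sym hR] at hk
    have e := sq1 (jac_pm hl ns')
    have hk' : (if l % 4 = 1 ∧ (R * s') % 4 = 3 then (-1 : ℤ) else 1) *
        (if l % 4 = 3 ∧ s' % 4 = 3 then (-1 : ℤ) else 1) * jacobiSym (R : ℤ) l *
        (if R % 8 = 1 ∨ R % 8 = 7 then 1 else -1) * (if R % 4 = 3 ∧ s' % 4 = 3 then -1 else 1) =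
        1 := by
      linear_combination hk - ((if l % 4 = 1 ∧ (R * s') % 4 = 3 then (-1 : ℤ) else 1) *
        (if l % 4 = 3 ∧ s' % 4 = 3 then (-1 : ℤ) else 1) * jacobiSym (R : ℤ) l *
        (if R % 8 = 1 ∨ R % 8 = 7 then 1 else -1) *
        (if R % 4 = 3 ∧ s' % 4 = 3 then -1 else 1)) * e
    have hgoal : K3 l 1 (l * R) s ↔ jacobiSym (R : ℤ) l = cl l := by
      unfold K3
      rw [Nat.mul_div_cancel_left _ hl.pos]
      simp only [Nat.cast_one, one_mul]
      exact ⟨fun h' => h'.2 (Dvd.intro _ rfl), fun h' => ⟨fun h'' => absurd h'' ns, fun _ => h'⟩⟩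
    rw [hgoal]
    have hjR := jac_pm hl nR
    rw [Nat.odd_iff] at hR hso
    have hr8 : R % 8 = 1 ∨ R % 8 = 3 ∨ R % 8 = 5 ∨ R % 8 = 7 := by omega
    have hs8 : s' % 4 = 1 ∨ s' % 4 = 3 := by omega
    have hr4 : R % 4 = R % 8 % 4 := by omega
    have hmul : R * s' % 4 = (R % 8 % 4) * (s' % 4) % 4 := by rw [Nat.mul_mod, hr4]
    have hm8 : (7 + 7 * m) % 8 = (7 + 14 * ((l % 8 % 4) * ((R % 8 % 4) * (s' % 4) % 4))) % 8 := by
      have e1 : m = 2 * (l * (R * s')) := by rw [← hM]; ring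
      have e2 : (l * (R * s')) % 4 = ((l % 8 % 4) * ((R % 8 % 4) * (s' % 4) % 4)) % 4 := by
        rw [Nat.mul_mod, hl4, hmul]
      omega
    have h5R : l * (l * R) % 8 = (l % 8) * ((l % 8) * (R % 8) % 8) % 8 := by
      rw [Nat.mul_mod, Nat.mul_mod l R]
    rw [hm8, h5R]
    rw [hmul] at hk'
    rw [hr4, hl4] at hk'
    unfold cl
    rw [hl4]
    generalize jacobiSym (R : ℤ) l = j at *
    generalize R % 8 = x at *
    generalize s' % 4 = y at *
    generalize l % 8 = z at *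
    rcases hjR with rfl | rfl <;> rcases hr8 with rfl | rfl | rfl | rfl <;>
      rcases hs8 with rfl | rfl <;> rcases hl8 with rfl | rfl | rfl | rfl <;> simp at hk' ⊢
  · -- `l ∣ s`
    have nr : ¬ l ∣ r := fun h' => sqf_fac hsq h hl h' h1
    obtain ⟨S, hS⟩ : l ∣ s' := by
      rw [hs'] at h1
      rcases (Nat.Prime.dvd_mul hl).1 h1 with h' | h'
      · exfalso
        have := (Nat.prime_dvd_prime_iff_eq hl Nat.prime_two).1 h'
        omega
      · exact h'
    have hSo : Odd S := by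
      rw [hS] at hso
      exact (Nat.odd_mul.1 hso).2
    have qS : Squarefree S := q3.squarefree_of_dvd ⟨l, by rw [hS]; ring⟩
    have nS : ¬ l ∣ S := not_dvd_quot hl (by rw [← hS]; exact q3)
    have hk := core (l := l) (t1 := 1) (t2 := 2 * l) hlo hr hSo q1 qS (fun p hp => by
        have hp' : p ∈ s'.primeFactors := Nat.mem_primeFactors.2
          ⟨Nat.prime_of_mem_primeFactors hp, (Nat.dvd_of_mem_primeFactors hp).trans
            ⟨l, by rw [hS]; ring⟩, q3.ne_zero⟩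
        have hne : p ≠ l := by
          rintro rfl
          exact nS (Nat.dvd_of_mem_primeFactors hp)
        exact_mod_cast hC.1 p (hsp p hp') (odd_pf hSo p hp) hne) (fun p hp => by
        have hne : p ≠ l := by
          rintro rfl
          exact nr (Nat.dvd_of_mem_primeFactors hp)
        have := hC.2 p hp (odd_pf hr p hp) hne
        rw [← this, hs', hS]
        congr 1
        push_cast
        ring)
    rw [jacobiSym.mul_left, jac_l hlo hr, two_sym hr, jacobiSym.one_left] at hk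
    have e := sq1 (jac_pm hl nr)
    have hk' : (if l % 4 = 1 ∧ (r * S) % 4 = 3 then (-1 : ℤ) else 1) *
        (if l % 4 = 3 ∧ r % 4 = 3 then (-1 : ℤ) else 1) * jacobiSym (S : ℤ) l *
        (if r % 8 = 1 ∨ r % 8 = 7 then 1 else -1) * (if r % 4 = 3 ∧ S % 4 = 3 then -1 else 1) =
        1 := by
      linear_combination hk - ((if l % 4 = 1 ∧ (r * S) % 4 = 3 then (-1 : ℤ) else 1) *
        (if l % 4 = 3 ∧ r % 4 = 3 then (-1 : ℤ) else 1) * jacobiSym (S : ℤ) l *
        (if r % 8 = 1 ∨ r % 8 = 7 then 1 else -1) *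
        (if r % 4 = 3 ∧ S % 4 = 3 then -1 else 1)) * e
    have hgoal : K3 l 1 r s ↔
        (if l % 8 = 1 ∨ l % 8 = 7 then 1 else -1) * jacobiSym (S : ℤ) l = cl l := by
      unfold K3
      have e1 : s / l = 2 * S := by
        rw [hs', hS, show 2 * (l * S) = l * (2 * S) by ring, Nat.mul_div_cancel_left _ hl.pos]
      rw [e1]
      simp only [Nat.cast_one, one_mul]
      rw [Nat.cast_mul, Nat.cast_ofNat, jacobiSym.mul_left, two_sym hlo]
      exact ⟨fun h' => h'.1 h1, fun h' => ⟨fun _ => h', fun h'' => absurd h'' nr⟩⟩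
    rw [hgoal]
    have hjS := jac_pm hl nS
    rw [Nat.odd_iff] at hr hSo
    have hr8 : r % 8 = 1 ∨ r % 8 = 3 ∨ r % 8 = 5 ∨ r % 8 = 7 := by omega
    have hs8 : S % 4 = 1 ∨ S % 4 = 3 := by omega
    have hr4 : r % 4 = r % 8 % 4 := by omega
    have hmul : r * S % 4 = (r % 8 % 4) * (S % 4) % 4 := by rw [Nat.mul_mod, hr4]
    have hm8 : (7 + 7 * m) % 8 = (7 + 14 * ((l % 8 % 4) * ((r % 8 % 4) * (S % 4) % 4))) % 8 := by
      have e1 : m = 2 * (l * (r * S)) := by rw [← hM, hS]; ring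
      have e2 : (l * (r * S)) % 4 = ((l % 8 % 4) * ((r % 8 % 4) * (S % 4) % 4)) % 4 := by
        rw [Nat.mul_mod, hl4, hmul]
      omega
    have h5R : l * r % 8 = (l % 8) * (r % 8) % 8 := Nat.mul_mod _ _ _
    rw [hm8, h5R]
    rw [hmul] at hk'
    rw [hr4, hl4] at hk'
    unfold cl
    rw [hl4]
    generalize jacobiSym (S : ℤ) l = j at *
    generalize r % 8 = x at *
    generalize S % 4 = y at *
    generalize l % 8 = z at *
    rcases hjS with rfl | rfl <;> rcases hr8 with rfl | rfl | rfl | rfl <;>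
      rcases hs8 with rfl | rfl <;> rcases hl8 with rfl | rfl | rfl | rfl <;> simp at hk' ⊢

end Pool.Agent.N919.RR
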